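import Pool.Agent.R948.ZPf

/-!
# The forms of the Zilber–Pink conjecture are equivalent

Let `K` be an uncountable algebraically closed field, for instance the field of complex numbers, and
let `X` be a quasi-projective variety over `K` with a special structure: a countable collection `𝒮`
of subvarieties (irreducible Zariski closed subsets) of `X`, called special, which contains the
irreducible components of the intersections of its members. Examples over `K = ℂ`: a connected
Shimura variety, or a mixed Shimura variety, with its special subvarieties; a semi-abelian variety
with its torsion cosets.

The theorem says that the following statements on `(X, 𝒮)` are equivalent. In all of them `T` runs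
over all special subvarieties of `X`, and `V` over all subvarieties of `T`.

(1) `SequenceForm` (the question): if `V ≠ T`, then for all special subvarieties `Z_0, Z_1, …` of `T`
and atypical intersections `W_n` of `Z_n` and `V` with respect to `T`, the union of the `W_n` is
contained in a finite union of special subvarieties of `T` other than `T`.

(2) `ZilberForm`: the union of the atypical subvarieties of `V` in `T` is the union of finitely many
of them.

(3) `OptimalForm`: `V` has only finitely many optimal subvarieties (Habegger and Pila).

(4) `PointForm`: `V` has only finitely many optimal points.

(5) `PinkForm`: if no special subvariety of `T` other than `T` contains `V`, then the intersection of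
`V` with the union of the special subvarieties `S` of `T` with `dim S < dim T - dim V` is not Zariski
dense in `V`.

Points of the projective space with homogeneous coordinates indexed by `ι` are nonzero vectors in
`ι → K` up to scalars; its subsets are represented by their cones (sets of nonzero vectors stable
under nonzero scalars). All definitions are in `Pool.Agent.R948.ZPa`.

The main point is that (4) implies (3). Let `A_1, A_2, …` be infinitely many optimal subvarieties of
`V`. We may assume that they have the same dimension `a` and that there is a set of `a + 1`
homogeneous coordinates which is a transcendence basis for all of them. Everything is defined over a
countable algebraically closed field `k`. Choose values `t_j`, algebraically independent over `k`,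
for these coordinates, and let `H` be the linear subspace where they are proportional to `t`. Then
`A_i` has a point `p_i` on `H` which is generic over `k`, and a computation of transcendence degrees
shows that `p_i` is an optimal point of (a component of) `V ∩ H`.
-/

set_option autoImplicit false

open Pool.Agent.R948.ZP

/-- **The forms of the Zilber–Pink conjecture are equivalent.** -/
theorem Pool.Agent.Results.MP_d83ecd_ag.FormsOfZilberPink.result
    (K : Type) [Field K] [IsAlgClosed K] [Uncountable K] (ι : Type) [Fintype ι]
    (X : Set (ι → K)) (hX : QuasiProjective X)
    (𝒮 : Set (Set (ι → K))) (h𝒮 : SpecialStructure X 𝒮) :
    List.TFAE [SequenceForm X 𝒮, ZilberForm X 𝒮, OptimalForm X 𝒮, PointForm X 𝒮,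
      PinkForm X 𝒮] :=
  forms_tfae hX h𝒮
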