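import Pool.Agent.R948.YE

/-!
# MP_d83ecd_ag: the Zilber-Pink conjecture for `Y(1)^n` is equivalent to that for powers of one
explicit surface

The Shimura variety is `Y(1) ^ ι = ℂ ^ ι`, `ι` a finite type.

* `Y1.zeros S`: the zero locus in `ℂ ^ ι` of a set `S` of complex polynomials.
* `Y1.Subvariety A`: `A` is an irreducible Zariski closed subset of `ℂ ^ ι`.
* `Y1.van A`, `Y1.vdim A`, `Y1.zcl A`: the ideal of the polynomials vanishing on `A`, the dimension
  of `A` (the transcendence degree over `ℂ` of the coordinate ring `ℂ[x] / van A`), the Zariski
  closure of `A`.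
* `H294ZP.jj : ℍ → ℂ`: the elliptic modular function `j = E₄³ / Δ`. `H294ZP.IsCM τ`: `τ` satisfies
  a quadratic equation with integral coefficients, so that `jj τ` is a singular modulus.
* `Y1.SpecialDatum ι r` and its `locus`: the coordinates are divided into constant coordinates,
  equal to singular moduli, and `r` nonempty classes; `locus` is the set of the points whose
  coordinates of class `l` are `j (g_i z_l)`, with `g_i` integral matrices of positive determinant
  and `z_1, …, z_r` free in the upper half plane. The special subvarieties of dimension `r` of
  `Y(1) ^ ι` are the Zariski closures of these loci.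
* `Y1.specialDim A`: the least dimension of a special subvariety containing `A`.
  `Y1.defect A = specialDim A - vdim A`.
* `Y1.Optimal A V`: `A` is a subvariety contained in `V`, and no subvariety `B` with
  `A ⊂ B ⊆ V`, `B ≠ A`, has `defect B ≤ defect A`.
* `Y1.universal M c`: the subvariety `S ^ M × {c}` of `Y(1) ^ (3 M) × Y(1) ^ κ`, where `S` is the
  surface `z = x ^ 2 + y` in `Y(1) ^ 3` and `c` is a point of `Y(1) ^ κ`.

**Theorem.** Every subvariety of every `Y(1) ^ n` has only finitely many optimal subvarieties (the
Zilber-Pink conjecture for the Shimura varieties `Y(1) ^ n`, in the formulation of Habegger and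
Pila) if and only if the explicit subvarieties `S ^ M × {c}` have only finitely many optimal
subvarieties.
-/

set_option autoImplicit false

namespace Pool.Agent.Results.MP_d83ecd_ag.UniversalSurfacePowers

open Pool.Agent.R948

/-- **Universality of the powers of one surface for Zilber-Pink in `Y(1) ^ n`.** -/
theorem result :
    (∀ (ι : Type) [Fintype ι] (V : Set (ι → ℂ)), Y1.Subvariety V →
      {A | Y1.Optimal A V}.Finite) ↔
    ∀ (κ : Type) [Fintype κ] (c : κ → ℂ) (M : ℕ), {A | Y1.Optimal A (Y1.universal M c)}.Finite :=
  Y1.universal_iff

end Pool.Agent.Results.MP_d83ecd_ag.UniversalSurfacePowers
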